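import Pool.Agent.Helper42.SLC.Goals

/-!
# Project SL, at most one exceptional field: packet SGN
-/

namespace Pool.Agent.Helper87.SLC

open Pool.Agent.Helper42.SLC Pool.Agent.Helper17.SL
open Pool.Agent.Helper51.SigLeo Pool.Agent.Helper51.SixExp NumberField Module TensorProduct

universe u v w x y

theorem sgn : S_SGN.{u, v, w, x, y} := by
  intro k₀ _ K _ H _ N _ _ _ _ _ _ _ _ _ _ _ _ A _ χ θ θ' hK hθ hθ' hne
  have h1 : ∀ g : N ≃ₐ[k₀] N, (∀ x : K, g (algebraMap K N x) = algebraMap K N x) →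
      θ' g = θ g := by
    intro g hg
    let gK : N ≃ₐ[K] N := AlgEquiv.ofRingEquiv (f := g.toRingEquiv) (fun t => hg t)
    have h2 : ∀ x : H, g (algebraMap H N x) = algebraMap H N (gK.restrictNormal H x) := fun x =>
      (AlgEquiv.restrictNormal_commutes gK H x).symm
    rw [hθ g _ h2, hθ' g _ h2]
  refine ⟨h1, ?_⟩
  have hchar : CharZero k₀ := (algebraMap k₀ N).charZero
  have hfd : FiniteDimensional k₀ K := FiniteDimensional.of_finrank_pos (by omega)
  have hq : Algebra.IsQuadraticExtension k₀ K := ⟨hK⟩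
  -- the restriction to `K`
  have hr : ∀ (γ : N ≃ₐ[k₀] N) (t : K), γ (algebraMap K N t) =
      algebraMap K N (AlgEquiv.restrictNormalHom K γ t) := fun γ t =>
    (AlgEquiv.restrictNormal_commutes γ K t).symm
  have hr1 : ∀ γ : N ≃ₐ[k₀] N, AlgEquiv.restrictNormalHom K γ = 1 →
      ∀ x : K, γ (algebraMap K N x) = algebraMap K N x := by
    intro γ h x
    rw [hr, h]; rfl
  have hr2 : ∀ γ : N ≃ₐ[k₀] N, (∃ x : K, γ (algebraMap K N x) ≠ algebraMap K N x) →
      AlgEquiv.restrictNormalHom K γ ≠ 1 := by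
    rintro γ ⟨x, hx⟩ h
    exact hx (hr1 γ h x)
  -- an element where the characters are different
  obtain ⟨g₀, hg₀⟩ : ∃ g₀, θ' g₀ ≠ θ g₀ := by
    by_contra hcon
    push Not at hcon
    exact hne (MonoidHom.ext fun g => (hcon g).symm)
  have hg₀K : AlgEquiv.restrictNormalHom K g₀ ≠ 1 := fun h => hg₀ (h1 g₀ (hr1 g₀ h))
  have hsq : ((θ' g₀ : Aˣ) : A) ^ 2 = ((θ g₀ : Aˣ) : A) ^ 2 := by
    have h2 : θ' (g₀ * g₀) = θ (g₀ * g₀) := by
      apply h1
      apply hr1
      rw [map_mul]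
      exact tau_mul_tau hK _ hg₀K
    rw [map_mul, map_mul] at h2
    have h3 := congrArg (Units.val) h2
    rw [Units.val_mul, Units.val_mul] at h3
    rw [sq, sq, h3]
  have hg₀2 : θ' g₀ = -θ g₀ := by
    rcases sq_eq_sq_iff_eq_or_eq_neg.1 hsq with h | h
    · exact absurd (Units.ext h) hg₀
    · exact Units.ext (by rw [h, Units.val_neg])
  intro g hg
  have h4 : θ' (g₀⁻¹ * g) = θ (g₀⁻¹ * g) := by
    apply h1
    apply hr1
    rw [map_mul, map_inv, inv_mul_eq_one]
    rcases gal_two hK _ hg₀K (AlgEquiv.restrictNormalHom K g) with h | h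
    · exact absurd h (hr2 g hg)
    · exact h.symm
  have h5 : g = g₀ * (g₀⁻¹ * g) := by group
  rw [h5, map_mul θ', map_mul θ, h4, hg₀2, neg_mul]

end Pool.Agent.Helper87.SLC
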